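import Pool.Agent.H140.OCC.Rows

set_option autoImplicit false

/-!
Directed even subgraphs from half sums of the eight circulations of a circuit double cover.
-/

namespace Pool.Agent.H140.OCC

open Finset
open Pool.Agent.H126R2.CDC (T3)
open Pool.Agent.TH505.OCDC

variable {V : Type} [Fintype V] {G : SimpleGraph V}

/-- the sign of a row entry -/
def sg (b : Bool) : ℤ := if b then 1 else -1

/-- the signed sum of the eight circulations -/
noncomputable def ssum (g : T3 → V → V → ℤ) (r : T3 → Bool) (u v : V) : ℤ :=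
  ∑ c, sg (r c) * g c u v

/-- half of the signed sum -/
noncomputable def fl (g : T3 → V → V → ℤ) (r : T3 → Bool) (u v : V) : ℤ := ssum g r u v / 2

/-- the eight circulations -/
structure Eight (G : SimpleGraph V) (g : T3 → V → V → ℤ) : Prop where
  anti : ∀ c u v, g c v u = - g c u v
  cons : ∀ c u, ∑ w, g c u w = 0
  supp : ∀ c u v, ¬ G.Adj u v → g c u v = 0
  two : ∀ u v, G.Adj u v → ∃ a b : T3, a ≠ b ∧ (g a u v = 1 ∨ g a u v = -1) ∧
        (g b u v = 1 ∨ g b u v = -1) ∧ ∀ c, c ≠ a → c ≠ b → g c u v = 0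

variable {g : T3 → V → V → ℤ}

lemma ssum_two (r : T3 → Bool) {u v : V} {a b : T3} (hab : a ≠ b)
    (h0 : ∀ c, c ≠ a → c ≠ b → g c u v = 0) :
    ssum g r u v = sg (r a) * g a u v + sg (r b) * g b u v := by
  classical
  unfold ssum
  rw [← Finset.sum_subset (Finset.subset_univ ({a, b} : Finset T3))]
  · rw [Finset.sum_pair hab]
  · intro c _ hc
    simp only [mem_insert, mem_singleton, not_or] at hc
    rw [h0 c hc.1 hc.2, mul_zero]

lemma sg_cases (b : Bool) : sg b = 1 ∨ sg b = -1 := by
  cases b <;> simp [sg]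

lemma two_fl (hg : Eight G g) (r : T3 → Bool) (u v : V) : 2 * fl g r u v = ssum g r u v := by
  unfold fl
  by_cases h : G.Adj u v
  · obtain ⟨a, b, hab, ha, hb, h0⟩ := hg.two u v h
    rw [ssum_two r hab h0]
    rcases sg_cases (r a) with h1 | h1 <;> rcases sg_cases (r b) with h2 | h2 <;>
      rcases ha with h3 | h3 <;> rcases hb with h4 | h4 <;> rw [h1, h2, h3, h4] <;> norm_num
  · have : ssum g r u v = 0 := by
      unfold ssum
      exact Finset.sum_eq_zero (fun c _ => by rw [hg.supp c u v h, mul_zero])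
    rw [this]; norm_num

lemma fl_supp (hg : Eight G g) (r : T3 → Bool) (u v : V) (h : fl g r u v ≠ 0) : G.Adj u v := by
  by_contra hn
  apply h
  have h1 := two_fl hg r u v
  have : ssum g r u v = 0 := by
    unfold ssum
    exact Finset.sum_eq_zero (fun c _ => by rw [hg.supp c u v hn, mul_zero])
  omega

lemma fl_anti (hg : Eight G g) (r : T3 → Bool) (u v : V) : fl g r v u = - fl g r u v := by
  have h1 := two_fl hg r u v
  have h2 := two_fl hg r v u
  have h3 : ssum g r v u = - ssum g r u v := by
    unfold ssum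
    rw [← Finset.sum_neg_distrib]
    exact Finset.sum_congr rfl (fun c _ => by rw [hg.anti c u v]; ring)
  omega

lemma fl_cons (hg : Eight G g) (r : T3 → Bool) (u : V) : ∑ w, fl g r u w = 0 := by
  have h1 : 2 * ∑ w, fl g r u w = ∑ w, ssum g r u w := by
    rw [Finset.mul_sum]
    exact Finset.sum_congr rfl (fun w _ => two_fl hg r u w)
  have h2 : ∑ w, ssum g r u w = 0 := by
    unfold ssum
    rw [Finset.sum_comm]
    refine Finset.sum_eq_zero (fun c _ => ?_)
    rw [← Finset.mul_sum, hg.cons c u, mul_zero]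
  omega

lemma fl_val (hg : Eight G g) (r : T3 → Bool) (u v : V) :
    fl g r u v = 0 ∨ fl g r u v = 1 ∨ fl g r u v = -1 := by
  by_cases h : G.Adj u v
  · have h1 := two_fl hg r u v
    obtain ⟨a, b, hab, ha, hb, h0⟩ := hg.two u v h
    rw [ssum_two r hab h0] at h1
    rcases sg_cases (r a) with e1 | e1 <;> rcases sg_cases (r b) with e2 | e2 <;>
      rcases ha with e3 | e3 <;> rcases hb with e4 | e4 <;> rw [e1, e2, e3, e4] at h1 <;> omega
  · by_contra hn
    exact h (fl_supp hg r u v (fun h0 => hn (Or.inl h0)))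

/-- at an edge, the value of the half sum is one exactly for the rows with two given entries -/
lemma fl_one (hg : Eight G g) {u v : V} (h : G.Adj u v) :
    ∃ a b : T3, a ≠ b ∧ ∃ s t : Bool, ∀ r : T3 → Bool, fl g r u v = 1 ↔ (r a = s ∧ r b = t) := by
  obtain ⟨a, b, hab, ha, hb, h0⟩ := hg.two u v h
  have hst : ∀ x : ℤ, x = 1 ∨ x = -1 → ∃ s : Bool, ∀ y : Bool, sg y * x = 1 ↔ y = s := by
    intro x hx
    rcases hx with rfl | rfl
    · exact ⟨true, fun y => by cases y <;> simp [sg]⟩
    · exact ⟨false, fun y => by cases y <;> simp [sg]⟩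
  obtain ⟨s, hs⟩ := hst _ ha
  obtain ⟨t, ht⟩ := hst _ hb
  refine ⟨a, b, hab, s, t, fun r => ?_⟩
  rw [← hs (r a), ← ht (r b)]
  have h1 := two_fl hg r u v
  rw [ssum_two r hab h0] at h1
  have ha' : sg (r a) * g a u v = 1 ∨ sg (r a) * g a u v = -1 := by
    rcases sg_cases (r a) with e1 | e1 <;> rcases ha with e3 | e3 <;> rw [e1, e3] <;> norm_num
  have hb' : sg (r b) * g b u v = 1 ∨ sg (r b) * g b u v = -1 := by
    rcases sg_cases (r b) with e1 | e1 <;> rcases hb with e3 | e3 <;> rw [e1, e3] <;> norm_num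
  omega

/-- `m` directed even subgraphs (as lists of directed cycles) such that no edge is traversed more
than once by one of them and every arc is traversed exactly `k` times -/
def Fam (G : SimpleGraph V) (m k : ℕ) : Prop :=
  ∃ C : Fin m → List (Σ v : V, G.Walk v v), (∀ i, ∀ c ∈ C i, c.2.IsCycle) ∧
    (∀ i u v, G.Adj u v → tot (C i) u v + tot (C i) v u ≤ 1) ∧
    ∀ u v, G.Adj u v → ∑ i, tot (C i) u v = k

lemma fam_of_flows (m k : ℕ) (f : Fin m → V → V → ℤ)
    (hanti : ∀ i u v, f i v u = - f i u v)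
    (hval : ∀ i u v, f i u v = 0 ∨ f i u v = 1 ∨ f i u v = -1)
    (hsupp : ∀ i u v, f i u v ≠ 0 → G.Adj u v) (hcons : ∀ i u, ∑ w, f i u w = 0)
    (hk : ∀ u v, G.Adj u v → ∑ i, ind (f i u v = 1) = k) : Fam G m k := by
  have h := fun i => flow_decomp (f i) (hanti i) (hval i) (hsupp i) (hcons i)
  choose C hC1 hC2 using h
  refine ⟨C, hC1, ?_, ?_⟩
  · intro i u v _
    rw [hC2, hC2, hanti i u v]
    rcases hval i u v with h | h | h
    · rw [h, ind_neg (by norm_num), ind_neg (by norm_num)]; norm_num
    · rw [h, ind_pos rfl, ind_neg (by norm_num)]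
    · rw [h, ind_neg (by norm_num), ind_pos (by norm_num)]
  · intro u v huv
    rw [← hk u v huv]
    exact Finset.sum_congr rfl (fun i _ => hC2 i u v)

lemma sum_ind_get (L : List (T3 → Bool)) (P : (T3 → Bool) → Prop) [DecidablePred P] :
    ∑ i : Fin L.length, ind (P (L.get i)) = L.countP (fun r => decide (P r)) := by
  classical
  induction L with
  | nil => simp
  | cons r L ih =>
    rw [List.countP_cons]
    have : ∑ i : Fin (r :: L).length, ind (P ((r :: L).get i)) =
        ind (P r) + ∑ i : Fin L.length, ind (P (L.get i)) := by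
      exact Fin.sum_univ_succ (n := L.length) (fun i => ind (P ((r :: L).get i)))
    rw [this, ih]
    by_cases h : P r
    · rw [ind_pos h]; simp [h, add_comm]
    · rw [ind_neg h]; simp [h]

theorem fam_OA (hg : Eight G g) (L : List (T3 → Bool)) (k : ℕ) (hL : OA L k) :
    Fam G L.length k := by
  classical
  refine fam_of_flows L.length k (fun i => fl g (L.get i)) (fun i => fl_anti hg _)
    (fun i => fl_val hg _) (fun i => fl_supp hg _) (fun i => fl_cons hg _) ?_
  intro u v huv
  obtain ⟨a, b, hab, s, t, h⟩ := fl_one hg huv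
  rw [sum_ind_get L (fun r => fl g r u v = 1)]
  rw [← hL a b hab s t]
  unfold cnt
  apply List.countP_congr
  intro r _
  simp [h r]

/-- each of the eight circulations in both directions -/
theorem fam_two (hg : Eight G g) : Fam G 16 2 := by
  classical
  have hcard : Fintype.card (T3 × Bool) = 16 := by decide
  obtain ⟨e⟩ : Nonempty (Fin 16 ≃ T3 × Bool) := ⟨(Fintype.equivFinOfCardEq hcard).symm⟩
  refine fam_of_flows 16 2 (fun i u v => sg (e i).2 * g (e i).1 u v) ?_ ?_ ?_ ?_ ?_
  · intro i u v
    rw [hg.anti]; ring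
  · intro i u v
    by_cases h : G.Adj u v
    · obtain ⟨a, b, hab, ha, hb, h0⟩ := hg.two u v h
      have : g (e i).1 u v = 0 ∨ g (e i).1 u v = 1 ∨ g (e i).1 u v = -1 := by
        by_cases h1 : (e i).1 = a
        · rw [h1]; tauto
        · by_cases h2 : (e i).1 = b
          · rw [h2]; tauto
          · left; exact h0 _ h1 h2
      rcases sg_cases (e i).2 with e1 | e1 <;> rcases this with e2 | e2 | e2 <;> rw [e1, e2] <;>
        norm_num
    · rw [hg.supp _ u v h]; simp
  · intro i u v h
    by_contra hn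
    exact h (by rw [hg.supp _ u v hn, mul_zero])
  · intro i u
    rw [← Finset.mul_sum, hg.cons, mul_zero]
  · intro u v huv
    have h1 : ∑ i : Fin 16, ind (sg (e i).2 * g (e i).1 u v = 1) =
        ∑ p : T3 × Bool, ind (sg p.2 * g p.1 u v = 1) :=
      Equiv.sum_comp e (fun p : T3 × Bool => ind (sg p.2 * g p.1 u v = 1))
    rw [h1, Fintype.sum_prod_type]
    obtain ⟨a, b, hab, ha, hb, h0⟩ := hg.two u v huv
    have h2 : ∀ x : T3, ∑ y : Bool, ind (sg y * g x u v = 1) = if x = a ∨ x = b then 1 else 0 := by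
      intro x
      rw [Fintype.sum_bool]
      by_cases hx : x = a ∨ x = b
      · rw [if_pos hx]
        have : g x u v = 1 ∨ g x u v = -1 := by
          rcases hx with rfl | rfl
          · exact ha
          · exact hb
        rcases this with h3 | h3
        · rw [h3, ind_pos (by simp [sg]), ind_neg (by simp [sg])]
        · rw [h3, ind_neg (by simp [sg]), ind_pos (by simp [sg])]
      · rw [if_neg hx]
        push Not at hx
        rw [h0 x hx.1 hx.2, mul_zero, mul_zero, ind_neg (by norm_num)]
    rw [Finset.sum_congr rfl (fun x _ => h2 x), Finset.sum_ite]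
    simp only [sum_const, sum_const_zero, smul_eq_mul, mul_one, add_zero]
    have : (univ.filter (fun x : T3 => x = a ∨ x = b)) = {a, b} := by
      ext x; simp
    rw [this, Finset.card_pair hab]
    simp

theorem main (G : SimpleGraph V) (hG : NoCut G) (k : ℕ) (hk : 2 ≤ k) :
    Fam G (if k = 2 then 16 else 4 * k) k := by
  obtain ⟨g, h1, h2, h3, h4⟩ := exists_flows G hG
  have hg : Eight G g := ⟨h1, h2, h3, h4⟩
  by_cases h : k = 2
  · subst h
    rw [if_pos rfl]
    exact fam_two hg
  · rw [if_neg h]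
    obtain ⟨L, hL1, hL2⟩ := exists_OA k (by omega)
    have := fam_OA hg L k hL2
    rwa [hL1] at this

end Pool.Agent.H140.OCC
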