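import Pool.Agent.TH505.OCDC.Cover

set_option autoImplicit false

/-!
Two-level orthogonal arrays of strength two with eight columns and `4 k` rows, for every `k ≥ 3`.
-/

namespace Pool.Agent.H140.OCC

open Pool.Agent.H126R2.CDC (T3)

/-- the number of rows with the value `s` at `a` and the value `t` at `b` -/
def cnt (L : List (T3 → Bool)) (a b : T3) (s t : Bool) : ℕ :=
  L.countP (fun r => (r a == s) && (r b == t))

/-- every two columns contain each of the four pairs of values exactly `k` times -/
def OA (L : List (T3 → Bool)) (k : ℕ) : Prop :=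
  ∀ a b : T3, a ≠ b → ∀ s t : Bool, cnt L a b s t = k

instance (L : List (T3 → Bool)) (k : ℕ) : Decidable (OA L k) := by
  unfold OA; infer_instance

/-- the number of a column -/
def idx (c : T3) : ℕ := 4 * c.1.toNat + 2 * c.2.1.toNat + c.2.2.toNat

/-- rows from the quadratic residues modulo a prime -/
def paley (q : ℕ) (S : List ℕ) : List (T3 → Bool) :=
  (fun _ => true) :: (List.range q).map (fun i => fun c => decide ((idx c + i) % q ∈ S))

/-- rows from the linear functions on `F_2^4` -/
def sylv : List (T3 → Bool) :=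
  (List.range 16).map (fun i => fun c =>
    (Nat.testBit i 0 && Nat.testBit (idx c + 1) 0) ^^ (Nat.testBit i 1 && Nat.testBit (idx c + 1) 1)
      ^^ (Nat.testBit i 2 && Nat.testBit (idx c + 1) 2)
      ^^ (Nat.testBit i 3 && Nat.testBit (idx c + 1) 3))

lemma oa3 : OA (paley 11 [1, 3, 4, 5, 9]) 3 := by decide +kernel

lemma oa4 : OA sylv 4 := by decide +kernel

lemma oa5 : OA (paley 19 [1, 4, 5, 6, 7, 9, 11, 16, 17]) 5 := by decide +kernel

lemma OA.append {L M : List (T3 → Bool)} {j k : ℕ} (h1 : OA L j) (h2 : OA M k) :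
    OA (L ++ M) (j + k) := by
  intro a b hab s t
  unfold cnt
  rw [List.countP_append]
  have e1 := h1 a b hab s t
  have e2 := h2 a b hab s t
  unfold cnt at e1 e2
  rw [e1, e2]

theorem exists_OA (k : ℕ) (hk : 3 ≤ k) : ∃ L : List (T3 → Bool), L.length = 4 * k ∧ OA L k := by
  induction k using Nat.strong_induction_on with
  | _ k ih =>
    by_cases h3 : k = 3
    · subst h3; exact ⟨_, by simp [paley], oa3⟩
    by_cases h4 : k = 4
    · subst h4; exact ⟨_, by simp [sylv], oa4⟩
    by_cases h5 : k = 5
    · subst h5; exact ⟨_, by simp [paley], oa5⟩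
    obtain ⟨L, hL1, hL2⟩ := ih (k - 3) (by omega) (by omega)
    refine ⟨L ++ paley 11 [1, 3, 4, 5, 9], ?_, ?_⟩
    · rw [List.length_append, hL1]
      simp [paley]
      omega
    · have := hL2.append oa3
      rwa [show k - 3 + 3 = k by omega] at this

end Pool.Agent.H140.OCC
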